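import Pool.Agent.X238.Rpo.Main

set_option autoImplicit false

/-!
# The existential theory of the recursive path ordering with a non-total precedence is undecidable

For the signature with one constant and three unary function symbols, the empty precedence (which
is not total), and each of the sixteen status functions, the existential fragment of the first-order
theory of the recursive path ordering is undecidable; every recursively enumerable set is many-one
reducible to it.

The terms are words over three letters and the ordering is the strict scattered subword ordering;
the function symbols prefix letters. Counting the letters, concatenation of words over two letters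
(by means of the third letter as a marker) and then multiplication are expressed by existential
formulas.
-/

namespace Pool.Agent.Results.MP_18cdfa_lc.UnaryEmptyPrecedenceUndecidable

open Pool.Agent.X238.Rpo

theorem result (st : Fin 4 → Bool) :
    ¬ (unary st).Total ∧
    ∃ gt : Term (unary st) → Term (unary st) → Prop, IsRPO (unary st) gt ∧
      (∀ gt', IsRPO (unary st) gt' → gt' = gt) ∧
      ¬ ComputablePred (ExTheory (unary st) gt) ∧
      ∀ A : ℕ → Prop, REPred A → A ≤₀ ExTheory (unary st) gt := by
  refine ⟨fun h => ?_, ?_⟩
  · have h01 : (0 : Fin 4) ≠ 1 := by decide
    rcases h (0 : Fin 4) (1 : Fin 4) h01 with h | h <;> exact h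
  · obtain ⟨gt, hgt⟩ := exists_rpo (st := st)
    refine ⟨gt, hgt, fun gt' h' => rpo_unique hgt h', fun hc => ?_, fun A hA => reduction hgt A hA⟩
    obtain ⟨A, hA, hn⟩ := exists_re_not_computable
    exact hn (ComputablePred.computable_of_manyOneReducible (reduction hgt A hA) hc)

end Pool.Agent.Results.MP_18cdfa_lc.UnaryEmptyPrecedenceUndecidable
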